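import Mathlib
import Pool.Agent.Y437.MO.Main

set_option autoImplicit false

/-!
# MO functions: how often and where the partial sums have size `1 / n`

For an MO function `f` with partial sums `S(n)`, and every `c < 1/2`, the excess
`(|S(n)| - c/n)⁺` is not summable. This gives `limsup x |S(x)| ≥ 1/2`, and it says how often
`|S(n)| > c/n` has to happen.
-/

namespace Pool.Agent.Results.MP_2ae949_nt.HowOften

open Finset Filter Topology

/-- `f` (its values at positive integers) is an MO function: it is multiplicative, the series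
`∑ f(n)` converges to `0`, and for every prime `p` the series `∑_{k ≥ 0} f(p^k)` converges to a
nonzero number. -/
structure IsMO (f : ℕ → ℂ) : Prop where
  map_one : f 1 = 1
  map_mul : ∀ m n : ℕ, 0 < m → 0 < n → Nat.Coprime m n → f (m * n) = f m * f n
  sum_zero : Tendsto (fun N : ℕ => ∑ n ∈ Finset.Icc 1 N, f n) atTop (𝓝 0)
  local_ne_zero : ∀ p : ℕ, p.Prime → ∃ c : ℂ, c ≠ 0 ∧
    Tendsto (fun K : ℕ => ∑ k ∈ Finset.range K, f (p ^ k)) atTop (𝓝 c)

/-- The partial sum `S_f(x) = ∑_{1 ≤ n ≤ x} f(n)`, for real `x`. -/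
noncomputable def S (f : ℕ → ℂ) (x : ℝ) : ℂ := ∑ n ∈ Finset.Icc 1 ⌊x⌋₊, f n

/-- The excess of `|S_f(n)|` over `c / n`. -/
noncomputable def excess (f : ℕ → ℂ) (c : ℝ) (n : ℕ) : ℝ := max (‖S f n‖ - c / n) 0

theorem S_nat (f : ℕ → ℂ) (n : ℕ) : S f n = ∑ m ∈ Icc 1 n, f m := by
  simp only [S, Nat.floor_natCast]

theorem excess_nonneg (f : ℕ → ℂ) (c : ℝ) (n : ℕ) : 0 ≤ excess f c n := le_max_right _ _

theorem le_excess (f : ℕ → ℂ) (c : ℝ) (n : ℕ) : ‖S f n‖ ≤ c / n + excess f c n := by
  have := le_max_left (‖S f n‖ - c / n) 0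
  unfold excess
  linarith

theorem excess_anti (f : ℕ → ℂ) {c c' : ℝ} (h : c ≤ c') (n : ℕ) :
    excess f c' n ≤ excess f c n := by
  unfold excess
  apply max_le_max _ le_rfl
  have : c / n ≤ c' / n := div_le_div_of_nonneg_right h (Nat.cast_nonneg n)
  linarith

/-- Both alternatives cannot fail. -/
theorem core (f : ℕ → ℂ) (hf : IsMO f) (C : ℝ) (hC : Summable (excess f C)) (κ : ℝ)
    (hκ : κ < 1) (r : ℕ → ℝ) (hr0 : ∀ n, 0 ≤ r n) (hrs : Summable r)
    (hr : ∀ p : ℕ, p.Prime → ‖f p‖ ≤ κ / p + r p) : False := by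
  have h1 : Summable (excess f (max C 0)) :=
    Summable.of_nonneg_of_le (fun n => excess_nonneg f _ n)
      (fun n => excess_anti f (le_max_left _ _) n) hC
  refine Pool.Agent.Y437.MO.main_false2 f hf.map_one hf.map_mul hf.local_ne_zero (max C 0)
    (le_max_right _ _) (excess f (max C 0)) (fun n => excess_nonneg f _ n) h1 ?_
    (max κ 0) (le_max_right _ _) (max_lt hκ one_pos) r hr0 hrs ?_
  · intro n _
    rw [← S_nat]
    exact le_excess f _ n
  · intro p hp
    refine (hr p hp).trans (add_le_add (div_le_div_of_nonneg_right (le_max_left _ _)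
      (Nat.cast_nonneg p)) le_rfl)

/-- The sum over primes of a summable nonnegative function of the primes. -/
theorem prime_ext (g : ℕ → ℝ) (h0 : ∀ n, 0 ≤ g n)
    (h : Summable (fun p : Nat.Primes => g p)) :
    ∃ r : ℕ → ℝ, (∀ n, 0 ≤ r n) ∧ Summable r ∧ ∀ p : ℕ, p.Prime → r p = g p := by
  refine ⟨Set.indicator {p : ℕ | p.Prime} g, fun n => Set.indicator_nonneg (fun p _ => h0 p) n,
    ?_, fun p hp => Set.indicator_of_mem (show p ∈ {p : ℕ | p.Prime} from hp) g⟩
  exact summable_subtype_iff_indicator.1 h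

/-- The dichotomy. -/
theorem dichotomy (f : ℕ → ℂ) (hf : IsMO f) :
    (∀ C : ℝ, ¬ Summable (excess f C)) ∨
      (∀ κ : ℝ, κ < 1 → ¬ Summable (fun p : Nat.Primes => max (‖f p‖ - κ / (p : ℕ)) 0)) := by
  by_contra hcon
  push Not at hcon
  obtain ⟨⟨C, hC⟩, κ, hκ, h⟩ := hcon
  obtain ⟨r, hr0, hrs, hr⟩ := prime_ext (fun n => max (‖f n‖ - κ / (n : ℕ)) 0)
    (fun n => le_max_right _ _) h
  refine core f hf C hC κ hκ r hr0 hrs (fun p hp => ?_)
  rw [hr p hp]
  have := le_max_left (‖f p‖ - κ / (p : ℕ)) 0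
  linarith

theorem f_le (f : ℕ → ℂ) (c : ℝ) (hc : 0 ≤ c) (n : ℕ) (hn : 2 ≤ n) :
    ‖f n‖ ≤ 2 * c / n + 2 * c / (n : ℝ) ^ 2 + (excess f c n + excess f c (n - 1)) := by
  obtain ⟨m, rfl⟩ : ∃ m, n = m + 1 := ⟨n - 1, by omega⟩
  have hm : 1 ≤ m := by omega
  have h1 : f (m + 1) = S f ((m + 1 : ℕ) : ℝ) - S f (m : ℝ) := by
    rw [S_nat, S_nat, Finset.sum_Icc_succ_top (by omega)]; ring
  have h2 := le_excess f c (m + 1)
  have h3 := le_excess f c m
  have h4 : ‖f (m + 1)‖ ≤ ‖S f ((m + 1 : ℕ) : ℝ)‖ + ‖S f (m : ℝ)‖ := by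
    rw [h1]; exact norm_sub_le _ _
  have hm1 : (1 : ℝ) ≤ m := by exact_mod_cast hm
  have h5 : c / (m : ℝ) ≤ c / ((m + 1 : ℕ) : ℝ) + 2 * c / ((m + 1 : ℕ) : ℝ) ^ 2 := by
    have e1 : c / ((m + 1 : ℕ) : ℝ) + 2 * c / ((m + 1 : ℕ) : ℝ) ^ 2 - c / (m : ℝ) =
        c * ((m : ℝ) - 1) / ((m : ℝ) * ((m : ℝ) + 1) ^ 2) := by
      push_cast
      field_simp
      ring
    have e2 : 0 ≤ c * ((m : ℝ) - 1) / ((m : ℝ) * ((m : ℝ) + 1) ^ 2) := by
      apply div_nonneg (mul_nonneg hc (by linarith)) (by positivity)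
    linarith
  simp only [Nat.add_sub_cancel]
  have h6 : 2 * c / ((m + 1 : ℕ) : ℝ) = c / ((m + 1 : ℕ) : ℝ) + c / ((m + 1 : ℕ) : ℝ) := by ring
  rw [h6]
  linarith

/-- The excess over the primes and their predecessors. -/
theorem at_primes (f : ℕ → ℂ) (hf : IsMO f) (C : ℝ) (hC : Summable (excess f C)) (c : ℝ)
    (hc : c < 1 / 2) :
    ¬ Summable (fun p : Nat.Primes => excess f c p + excess f c ((p : ℕ) - 1)) := by
  intro h
  have hc' : max c 0 < 1 / 2 := max_lt hc (by norm_num)
  obtain ⟨r, hr0, hrs, hr⟩ := prime_ext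
    (fun n => excess f (max c 0) n + excess f (max c 0) (n - 1))
    (fun n => add_nonneg (excess_nonneg _ _ _) (excess_nonneg _ _ _))
    (Summable.of_nonneg_of_le
      (fun p => add_nonneg (excess_nonneg _ _ _) (excess_nonneg _ _ _))
      (fun p => add_le_add (excess_anti f (le_max_left _ _) _)
        (excess_anti f (le_max_left _ _) _)) h)
  have hsq : Summable (fun n : ℕ => 2 * max c 0 / (n : ℝ) ^ 2) := by
    have := (Real.summable_one_div_nat_pow.mpr (by norm_num : 1 < 2)).mul_left (2 * max c 0)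
    refine this.congr (fun n => ?_)
    rw [mul_one_div]
  refine core f hf C hC (2 * max c 0) (by linarith) (fun n => 2 * max c 0 / (n : ℝ) ^ 2 + r n)
    (fun n => add_nonneg (by positivity) (hr0 n)) (hsq.add hrs) (fun p hp => ?_)
  have := f_le f (max c 0) (le_max_right _ _) p hp.two_le
  rw [hr p hp]
  linarith

theorem not_summable (f : ℕ → ℂ) (hf : IsMO f) (c : ℝ) (hc : c < 1 / 2) :
    ¬ Summable (excess f c) := by
  intro h
  apply at_primes f hf c h c hc
  have h1 : Summable (fun p : Nat.Primes => excess f c (p : ℕ)) :=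
    h.comp_injective Subtype.val_injective
  have h2 : Summable (fun n : ℕ => excess f c (n - 1)) := by
    rw [← summable_nat_add_iff 1]
    simpa using h
  exact h1.add (h2.comp_injective Subtype.val_injective)

/-- A nonnegative function that is bounded by `B / n` on a set with convergent sum of
reciprocals, and vanishes elsewhere, is summable. -/
theorem summable_of_set (A : Set ℕ) (hA : Summable (Set.indicator A (fun n : ℕ => 1 / (n : ℝ))))
    (g : ℕ → ℝ) (h0 : ∀ n, 0 ≤ g n) (B : ℝ) (hB : ∀ n ∈ A, g n ≤ B * (1 / (n : ℝ)))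
    (hg : ∀ n, n ∉ A → g n = 0) : Summable g := by
  refine Summable.of_nonneg_of_le h0 (fun n => ?_) (hA.mul_left B)
  by_cases hn : n ∈ A
  · rw [Set.indicator_of_mem hn]
    exact hB n hn
  · rw [Set.indicator_of_notMem hn, hg n hn, mul_zero]

/-- **How often the partial sums of an MO function are of size `1 / n`.**

Let `f` be an MO function.
(1) For every `c < 1/2` the excess `(|S(n)| - c/n)⁺` has a divergent sum over `n`; equivalently
the sum of `|S(n)|` over the integers `n` with `|S(n)| > c/n` diverges.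
(2) Either the excess over `C/n` has a divergent sum for every constant `C`, or for all `κ < 1`
the sum over the primes of `(|f(p)| - κ/p)⁺` diverges, and for all `c < 1/2` so does the
sum over the primes of the excesses over `c/n` at `n = p` and `n = p - 1`.
(3) If `x |S(x)|` is bounded, then for every `c < 1/2` the sum of `1/n` over the integers `n` with
`n |S(n)| > c` diverges, and so does the sum of `1/p` over the primes `p` for which `n = p` or
`n = p - 1` is such an integer.
(4) In particular `limsup x |S(x)| ≥ 1/2` (this answers Q1). -/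
theorem result : ∀ f : ℕ → ℂ, IsMO f →
    (∀ c : ℝ, c < 1 / 2 → ¬ Summable (fun n : ℕ => max (‖S f n‖ - c / n) 0) ∧
      ¬ Summable (Set.indicator {n : ℕ | c / n < ‖S f n‖} (fun n : ℕ => ‖S f n‖))) ∧
    ((∀ C : ℝ, ¬ Summable (fun n : ℕ => max (‖S f n‖ - C / n) 0)) ∨
      ((∀ κ : ℝ, κ < 1 → ¬ Summable (fun p : Nat.Primes => max (‖f p‖ - κ / (p : ℕ)) 0)) ∧
       (∀ c : ℝ, c < 1 / 2 → ¬ Summable (fun p : Nat.Primes =>
          max (‖S f (p : ℕ)‖ - c / (p : ℕ)) 0 +
            max (‖S f ((p : ℕ) - 1 : ℕ)‖ - c / ((p : ℕ) - 1 : ℕ)) 0)))) ∧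
    ((∃ M : ℝ, ∀ x : ℝ, 1 ≤ x → x * ‖S f x‖ ≤ M) → ∀ c : ℝ, c < 1 / 2 →
      ¬ Summable (Set.indicator {n : ℕ | c < n * ‖S f n‖} (fun n : ℕ => 1 / (n : ℝ))) ∧
      ¬ Summable (Set.indicator {p : ℕ | p.Prime ∧ (c < p * ‖S f p‖ ∨
        c < ((p - 1 : ℕ) : ℝ) * ‖S f ((p - 1 : ℕ) : ℝ)‖)} (fun n : ℕ => 1 / (n : ℝ)))) ∧
    ((1 / 2 : ℝ) : EReal) ≤
      Filter.limsup (fun x : ℝ => ((x * ‖S f x‖ : ℝ) : EReal)) atTop := by
  intro f hf
  have key1 := not_summable f hf
  -- a set statement
  have exc_zero : ∀ (c : ℝ) (n : ℕ), 1 ≤ n → ¬ (c < n * ‖S f n‖) → excess f c n = 0 := by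
    intro c n hn h
    have hn0 : (0 : ℝ) < n := by exact_mod_cast hn
    unfold excess
    apply max_eq_right
    have : ‖S f n‖ ≤ c / n := by
      rw [le_div_iff₀ hn0, mul_comm]
      linarith
    linarith
  refine ⟨fun c hc => ⟨key1 c hc, ?_⟩, ?_, ?_, ?_⟩
  · intro h
    -- use a constant between `max c 0` and `1/2`
    obtain ⟨c', hcc', hc'⟩ := exists_between (max_lt hc (by norm_num : (0 : ℝ) < 1 / 2))
    apply key1 c' hc'
    refine Summable.of_nonneg_of_le (fun n => excess_nonneg f c' n) (fun n => ?_) h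
    unfold excess
    have hc'0 : 0 ≤ c' := (le_max_right c 0).trans hcc'.le
    have hcc : c ≤ c' := (le_max_left c 0).trans hcc'.le
    by_cases hn : n ∈ {n : ℕ | c / n < ‖S f n‖}
    · rw [Set.indicator_of_mem hn]
      apply max_le _ (norm_nonneg _)
      have : 0 ≤ c' / n := div_nonneg hc'0 (Nat.cast_nonneg n)
      linarith
    · rw [Set.indicator_of_notMem hn]
      simp only [Set.mem_ofPred_eq, not_lt] at hn
      apply max_le _ le_rfl
      have : c / n ≤ c' / n := div_le_div_of_nonneg_right hcc (Nat.cast_nonneg n)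
      linarith
  · by_cases hC : ∀ C : ℝ, ¬ Summable (excess f C)
    · exact Or.inl hC
    · right
      refine ⟨(dichotomy f hf).resolve_left hC, ?_⟩
      push Not at hC
      obtain ⟨C, hC⟩ := hC
      exact fun c hc => at_primes f hf C hC c hc
  · rintro ⟨M, hM⟩ c hc
    have hM' : ∀ n : ℕ, 1 ≤ n → n * ‖S f n‖ ≤ M := fun n hn => hM n (by exact_mod_cast hn)
    have hM0 : 0 ≤ M := by
      have := hM' 1 le_rfl
      refine le_trans ?_ this
      positivity
    have hexM : ∀ (c : ℝ) (n : ℕ), 1 ≤ n → 0 ≤ c → excess f c n ≤ M * (1 / (n : ℝ)) := by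
      intro c n hn hc0
      have hn0 : (0 : ℝ) < n := by exact_mod_cast hn
      unfold excess
      apply max_le _ (by positivity)
      rw [mul_one_div, sub_le_iff_le_add, ← add_div, le_div_iff₀ hn0, mul_comm]
      have := hM' n hn
      linarith
    set c₀ := max c 0 with hc₀
    have hc₀' : c₀ < 1 / 2 := max_lt hc (by norm_num)
    have hc₀0 : 0 ≤ c₀ := le_max_right _ _
    have hcc₀ : c ≤ c₀ := le_max_left _ _
    have hS0 : S f ((0 : ℕ) : ℝ) = 0 := by
      rw [S_nat]; simp
    have hex0 : excess f c₀ 0 = 0 := by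
      unfold excess
      rw [hS0]
      simp
    constructor
    · intro h
      apply key1 c₀ hc₀'
      refine summable_of_set _ h (excess f c₀) (fun n => excess_nonneg f _ n) M ?_ ?_
      · intro n hn
        rcases Nat.eq_zero_or_pos n with rfl | hn1
        · rw [hex0]; simp
        · exact hexM c₀ n hn1 hc₀0
      · intro n hn
        rcases Nat.eq_zero_or_pos n with rfl | hn1
        · exact hex0
        · apply exc_zero c₀ n hn1
          intro h'
          exact hn (lt_of_le_of_lt hcc₀ h')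
    · intro h
      have hsum : Summable (excess f M) := by
        have : excess f M = fun _ => 0 := by
          funext n
          rcases Nat.eq_zero_or_pos n with rfl | hn1
          · unfold excess
            rw [hS0]
            simp
          · apply exc_zero M n hn1
            have := hM' n hn1
            linarith
        rw [this]
        exact summable_zero
      apply at_primes f hf M hsum c₀ hc₀'
      set A : Set ℕ := {p : ℕ | p.Prime ∧ (c < p * ‖S f p‖ ∨
        c < ((p - 1 : ℕ) : ℝ) * ‖S f ((p - 1 : ℕ) : ℝ)‖)} with hA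
      set g : ℕ → ℝ := Set.indicator {p : ℕ | p.Prime}
        (fun p => excess f c₀ p + excess f c₀ (p - 1)) with hg
      have hgs : Summable g := by
        refine summable_of_set A h g (fun n => Set.indicator_nonneg
          (fun p _ => add_nonneg (excess_nonneg _ _ _) (excess_nonneg _ _ _)) n) (3 * M) ?_ ?_
        · intro p hp
          have hpp : p.Prime := hp.1
          have hp2 : (2 : ℝ) ≤ p := by exact_mod_cast hpp.two_le
          rw [hg, Set.indicator_of_mem (show p ∈ {p : ℕ | p.Prime} from hpp)]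
          have h1 := hexM c₀ p hpp.one_le hc₀0
          have h2 := hexM c₀ (p - 1) (by have := hpp.two_le; omega) hc₀0
          have h3 : (1 : ℝ) / ((p - 1 : ℕ) : ℝ) ≤ 2 * (1 / (p : ℝ)) := by
            rw [Nat.cast_sub hpp.one_le, Nat.cast_one, mul_one_div,
              div_le_div_iff₀ (by linarith) (by linarith)]
            linarith
          have h4 := mul_le_mul_of_nonneg_left h3 hM0
          linarith
        · intro p hp
          by_cases hpp : p.Prime
          · rw [hg, Set.indicator_of_mem (show p ∈ {p : ℕ | p.Prime} from hpp)]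
            have hnot : ¬ (c < p * ‖S f p‖ ∨
                c < ((p - 1 : ℕ) : ℝ) * ‖S f ((p - 1 : ℕ) : ℝ)‖) := fun h' => hp ⟨hpp, h'⟩
            rw [not_or] at hnot
            rw [exc_zero c₀ p hpp.one_le (fun h' => hnot.1 (lt_of_le_of_lt hcc₀ h')),
              exc_zero c₀ (p - 1) (by have := hpp.two_le; omega)
                (fun h' => hnot.2 (lt_of_le_of_lt hcc₀ h')), add_zero]
          · exact Set.indicator_of_notMem (show p ∉ {p : ℕ | p.Prime} from hpp) _
      exact summable_subtype_iff_indicator.2 hgs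
  · by_contra hcon
    push Not at hcon
    obtain ⟨c', hc1, hc2⟩ := EReal.lt_iff_exists_real_btwn.mp hcon
    have hc2' : c' < 1 / 2 := by exact_mod_cast hc2
    have hev := Filter.eventually_lt_of_limsup_lt hc1
    have hev' : ∀ᶠ n : ℕ in atTop, (n : ℝ) * ‖S f n‖ < c' := by
      have h1 := (tendsto_natCast_atTop_atTop (R := ℝ)).eventually hev
      filter_upwards [h1] with n hn
      exact_mod_cast hn
    apply key1 c' hc2'
    obtain ⟨N, hN⟩ := eventually_atTop.1 (hev'.and (eventually_ge_atTop 1))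
    refine summable_of_ne_finset_zero (s := range N) (fun n hn => ?_)
    rw [mem_range, not_lt] at hn
    exact exc_zero c' n (hN n hn).2 (not_lt.2 (hN n hn).1.le)

end Pool.Agent.Results.MP_2ae949_nt.HowOften
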